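import Mathlib

/-!
# A recurrence with automatic coefficients whose sign sequence is not automatic

The coefficients `a n` depend only on the exponent of `2` in `n`: `a n = 0` for odd `n`
(and `n = 0`), `a n = 1` if the exponent is odd, and `a n = -2` if it is even and positive.
Then `r (2 m + 1) = 1` and `r (2 m)` is the number of digits `1` minus the number of digits `2`
of `m` in base `4`.  The zeros of `r` have unbounded gaps, but every interval
`[n K, (n + 1) K)` with `n ≥ 1` and `K` large contains a zero, and this is impossible for an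
automatic sequence.
-/

set_option autoImplicit false

namespace Pool.Agent.Results.MP_c55a01_nt.NotAutomatic

/-- The `k`-kernel of a sequence: all the subsequences `n ↦ a (k ^ e * n + j)` with
`0 ≤ j < k ^ e`. -/
def kernel (k : ℕ) (a : ℕ → ℤ) : Set (ℕ → ℤ) :=
  {b | ∃ e j : ℕ, j < k ^ e ∧ b = fun n => a (k ^ e * n + j)}

/-- A sequence is `k`-automatic if it takes finitely many values and its `k`-kernel is finite. -/
def IsAutomatic (k : ℕ) (a : ℕ → ℤ) : Prop :=
  (Set.range a).Finite ∧ (kernel k a).Finite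

/-- If a finite set of sequences contains `a` and is closed under `g ↦ (n ↦ g (k n + i))`,
then the kernel of `a` is contained in it. -/
lemma kernel_subset {k : ℕ} (hk : 2 ≤ k) {a : ℕ → ℤ} {T : Set (ℕ → ℤ)} (ha : a ∈ T)
    (hT : ∀ g ∈ T, ∀ i < k, (fun n => g (k * n + i)) ∈ T) : kernel k a ⊆ T := by
  have key : ∀ e j : ℕ, j < k ^ e → (fun n => a (k ^ e * n + j)) ∈ T := by
    intro e
    induction e with
    | zero =>
      intro j hj
      have : j = 0 := by simpa using hj
      subst this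
      simpa using ha
    | succ e ih =>
      intro j hj
      have hpos : 0 < k ^ e := by positivity
      have h1 : j / k ^ e < k := by
        rw [Nat.div_lt_iff_lt_mul hpos]
        calc j < k ^ (e + 1) := hj
          _ = k * k ^ e := by ring
      have h2 := hT _ (ih (j % k ^ e) (Nat.mod_lt _ hpos)) _ h1
      have h3 : (fun n => a (k ^ e * (k * n + j / k ^ e) + j % k ^ e)) =
          (fun n => a (k ^ (e + 1) * n + j)) := by
        funext n
        congr 1
        have := Nat.div_add_mod j (k ^ e)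
        calc k ^ e * (k * n + j / k ^ e) + j % k ^ e
            = k ^ (e + 1) * n + (k ^ e * (j / k ^ e) + j % k ^ e) := by ring
          _ = k ^ (e + 1) * n + j := by rw [this]
      rw [← h3]
      exact h2
  rintro b ⟨e, j, hj, rfl⟩
  exact key e j hj

/-- The zeros of an automatic sequence: if for every `n ≥ 1` all the blocks
`[k ^ e n, k ^ e (n + 1))` with `e` large contain a zero, then the gaps between the zeros are
bounded. -/
lemma bounded_gaps {k : ℕ} (hk : 2 ≤ k) {s : ℕ → ℤ} (hs : IsAutomatic k s)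
    (h1 : ∀ n : ℕ, 1 ≤ n → ∃ e0 : ℕ, ∀ e : ℕ, e0 ≤ e →
      ∃ j : ℕ, j < k ^ e ∧ s (k ^ e * n + j) = 0) :
    ∃ B : ℕ, ∀ x : ℕ, ∃ y : ℕ, x ≤ y ∧ y < x + B ∧ s y = 0 := by
  classical
  obtain ⟨hr, hK⟩ := hs
  -- the column of `n`
  set C : ℕ → Set (ℕ → ℤ) := fun n => {b | b ∈ kernel k s ∧ b n = 0} with hC
  have hCfin : (Set.range C).Finite := by
    apply Set.Finite.subset (hK.finite_subsets)
    rintro _ ⟨n, rfl⟩ b hb
    exact hb.1
  -- choose a threshold for every column
  have h3 : ∀ c : Set (ℕ → ℤ), ∃ e0 : ℕ, ∀ n : ℕ, 1 ≤ n → C n = c → ∀ e : ℕ, e0 ≤ e →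
      ∃ j : ℕ, j < k ^ e ∧ s (k ^ e * n + j) = 0 := by
    intro c
    by_cases hc : ∃ m : ℕ, 1 ≤ m ∧ C m = c
    · obtain ⟨m, hm, hmc⟩ := hc
      obtain ⟨e0, h0⟩ := h1 m hm
      refine ⟨e0, fun n hn hnc e he => ?_⟩
      obtain ⟨j, hj, hz⟩ := h0 e he
      refine ⟨j, hj, ?_⟩
      have h4 : (fun n => s (k ^ e * n + j)) ∈ C m := ⟨⟨e, j, hj, rfl⟩, hz⟩
      rw [hmc, ← hnc] at h4
      exact h4.2
    · exact ⟨0, fun n hn hnc => absurd ⟨n, hn, hnc⟩ hc⟩
  choose E hE using h3
  obtain ⟨M, hM⟩ : ∃ M : ℕ, ∀ c ∈ Set.range C, E c ≤ M := by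
    obtain ⟨M, hM⟩ := (hCfin.image E).bddAbove
    exact ⟨M, fun c hc => hM (Set.mem_image_of_mem E hc)⟩
  have hkM : 0 < k ^ M := by positivity
  refine ⟨2 * k ^ M, fun x => ?_⟩
  -- the next multiple of `k ^ M`
  obtain ⟨j, hj, hz⟩ := hE (C (x / k ^ M + 1)) (x / k ^ M + 1) (Nat.le_add_left 1 _) rfl M
    (hM _ ⟨_, rfl⟩)
  have hxn : x < k ^ M * (x / k ^ M + 1) := Nat.lt_mul_div_succ x hkM
  have hnx : k ^ M * (x / k ^ M + 1) ≤ x + k ^ M := by
    rw [Nat.mul_add, Nat.mul_one]
    have := Nat.mul_div_le x (k ^ M)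
    omega
  exact ⟨_, by omega, by omega, hz⟩

/-- The coefficients. -/
def a (n : ℕ) : ℤ :=
  if n % 2 = 1 then 0 else if n % 4 = 2 then 1 else if n % 8 = 4 then -2 else
    if n = 0 then 0 else a (n / 4)
termination_by n
decreasing_by omega

lemma a_odd (n : ℕ) : a (2 * n + 1) = 0 := by
  rw [a, if_pos (by omega)]

lemma a_two (n : ℕ) : a (4 * n + 2) = 1 := by
  rw [a, if_neg (by omega), if_pos (by omega)]

lemma a_four (n : ℕ) : a (8 * n + 4) = -2 := by
  rw [a, if_neg (by omega), if_neg (by omega), if_pos (by omega)]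

lemma a_eight (n : ℕ) : a (8 * n) = a (2 * n) := by
  rcases Nat.eq_zero_or_pos n with rfl | hn
  · rfl
  · rw [a, if_neg (by omega), if_neg (by omega), if_neg (by omega), if_neg (by omega)]
    congr 1
    omega

lemma a_automatic : IsAutomatic 2 a := by
  have hker : (kernel 2 a).Finite := by
    apply Set.Finite.subset (s := {a, fun n => a (2 * n), fun n => a (4 * n), fun _ => 0,
      fun _ => 1, fun _ => -2}) (Set.toFinite _)
    apply kernel_subset le_rfl
    · simp
    · intro g hg i hi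
      simp only [Set.mem_insert_iff, Set.mem_singleton_iff] at hg ⊢
      have hi' : i = 0 ∨ i = 1 := by omega
      rcases hg with rfl | rfl | rfl | rfl | rfl | rfl <;> rcases hi' with rfl | rfl
      · right; left; rfl
      · right; right; right; left; funext n; exact a_odd n
      · right; right; left; funext n
        show a (2 * (2 * n + 0)) = a (4 * n)
        congr 1; ring
      · right; right; right; right; left; funext n
        show a (2 * (2 * n + 1)) = 1
        rw [show 2 * (2 * n + 1) = 4 * n + 2 by ring]; exact a_two n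
      · right; left; funext n
        show a (4 * (2 * n + 0)) = a (2 * n)
        rw [show 4 * (2 * n + 0) = 8 * n by ring]; exact a_eight n
      · right; right; right; right; right; funext n
        show a (4 * (2 * n + 1)) = -2
        rw [show 4 * (2 * n + 1) = 8 * n + 4 by ring]; exact a_four n
      all_goals simp
  refine ⟨?_, hker⟩
  apply Set.Finite.subset (s := {0, 1, -2}) (Set.toFinite _)
  rintro _ ⟨n, rfl⟩
  induction n using Nat.strong_induction_on with
  | _ n ih =>
    rw [a]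
    split_ifs with h1 h2 h3 h4
    · simp
    · simp
    · simp
    · simp
    · exact ih _ (by omega)

/-- The partial sums of the coefficients with an even index: the values `r (2 m)`. -/
def f : ℕ → ℤ
  | 0 => 0
  | m + 1 => f m + a (2 * (m + 1))

lemma f_four (m : ℕ) : f (4 * m) = f m := by
  induction m with
  | zero => rfl
  | succ m ih =>
    have h1 : f (4 * (m + 1)) = f (4 * m) + a (4 * (2 * m) + 2) + a (8 * m + 4) +
        a (4 * (2 * m + 1) + 2) + a (8 * (m + 1)) := by
      rw [show 4 * (m + 1) = 4 * m + 1 + 1 + 1 + 1 by ring]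
      simp only [f]
      rw [show 2 * (4 * m + 1) = 4 * (2 * m) + 2 by ring,
        show 2 * (4 * m + 1 + 1) = 8 * m + 4 by ring,
        show 2 * (4 * m + 1 + 1 + 1) = 4 * (2 * m + 1) + 2 by ring,
        show 2 * (4 * m + 1 + 1 + 1 + 1) = 8 * (m + 1) by ring]
    rw [h1, ih, a_two, a_four, a_two, a_eight]
    simp only [f]
    ring

lemma f_four_one (m : ℕ) : f (4 * m + 1) = f m + 1 := by
  rw [f, f_four, show 2 * (4 * m + 1) = 4 * (2 * m) + 2 by ring, a_two]

lemma f_four_two (m : ℕ) : f (4 * m + 2) = f m - 1 := by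
  rw [f, f_four_one, show 2 * (4 * m + 1 + 1) = 8 * m + 4 by ring, a_four]
  ring

lemma f_four_three (m : ℕ) : f (4 * m + 3) = f m := by
  rw [f, f_four_two, show 2 * (4 * m + 2 + 1) = 4 * (2 * m + 1) + 2 by ring, a_two]
  ring

/-- `f` is additive with respect to the base `4` expansion. -/
lemma f_add (l : ℕ) : ∀ u j : ℕ, j < 4 ^ l → f (4 ^ l * u + j) = f u + f j := by
  induction l with
  | zero =>
    intro u j hj
    have : j = 0 := by simpa using hj
    subst this
    simp [f]
  | succ l ih =>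
    intro u j hj
    have h1 : j / 4 < 4 ^ l := by
      rw [Nat.div_lt_iff_lt_mul (by norm_num)]
      calc j < 4 ^ (l + 1) := hj
        _ = 4 ^ l * 4 := by ring
    have h2 := ih u (j / 4) h1
    have h3 : 4 ^ (l + 1) * u + j = 4 * (4 ^ l * u + j / 4) + j % 4 := by
      have := Nat.div_add_mod j 4
      calc 4 ^ (l + 1) * u + j = 4 ^ (l + 1) * u + (4 * (j / 4) + j % 4) := by rw [this]
        _ = _ := by ring
    have h4 : j = 4 * (j / 4) + j % 4 := (Nat.div_add_mod j 4).symm
    rw [h3]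
    have h5 : f j = f (4 * (j / 4) + j % 4) := by rw [← h4]
    rw [h5]
    have h6 : j % 4 = 0 ∨ j % 4 = 1 ∨ j % 4 = 2 ∨ j % 4 = 3 := by omega
    rcases h6 with h | h | h | h <;> rw [h]
    · rw [Nat.add_zero, Nat.add_zero, f_four, f_four, h2]
    · rw [f_four_one, f_four_one, h2]; ring
    · rw [f_four_two, f_four_two, h2]; ring
    · rw [f_four_three, f_four_three, h2]

/-- `(11…1)` in base `4`. -/
def R : ℕ → ℕ
  | 0 => 0
  | t + 1 => 4 * R t + 1

lemma f_R (t : ℕ) : f (R t) = t := by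
  induction t with
  | zero => rfl
  | succ t ih => rw [R, f_four_one, ih]; push_cast; ring

lemma f_two_R (t : ℕ) : f (2 * R t) = -t := by
  induction t with
  | zero => rfl
  | succ t ih =>
    rw [R, show 2 * (4 * R t + 1) = 4 * (2 * R t) + 2 by ring, f_four_two, ih]
    push_cast; ring

lemma R_lt (t : ℕ) : 2 * R t < 4 ^ t := by
  induction t with
  | zero => norm_num [R]
  | succ t ih =>
    rw [R, pow_succ]
    have : 1 ≤ 4 ^ t := Nat.one_le_pow _ _ (by norm_num)
    omega

lemma f_abs_le (l : ℕ) : ∀ j : ℕ, j < 4 ^ l → |f j| ≤ l := by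
  induction l with
  | zero =>
    intro j hj
    have : j = 0 := by simpa using hj
    subst this
    simp [f]
  | succ l ih =>
    intro j hj
    have h1 : j / 4 < 4 ^ l := by
      rw [Nat.div_lt_iff_lt_mul (by norm_num)]
      calc j < 4 ^ (l + 1) := hj
        _ = 4 ^ l * 4 := by ring
    have h2 := ih _ h1
    rw [abs_le] at h2 ⊢
    have h5 : f j = f (4 * (j / 4) + j % 4) := by rw [Nat.div_add_mod j 4]
    rw [h5]
    push_cast
    have h6 : j % 4 = 0 ∨ j % 4 = 1 ∨ j % 4 = 2 ∨ j % 4 = 3 := by omega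
    rcases h6 with h | h | h | h <;> rw [h]
    · rw [Nat.add_zero, f_four]; omega
    · rw [f_four_one]; omega
    · rw [f_four_two]; omega
    · rw [f_four_three]; omega

lemma f_abs_le_self (u : ℕ) : |f u| ≤ u := by
  induction u using Nat.strong_induction_on with
  | _ u ih =>
    rcases Nat.eq_zero_or_pos u with rfl | hu
    · simp [f]
    · have h2 := ih (u / 4) (by omega)
      rw [abs_le] at h2 ⊢
      have h5 : f u = f (4 * (u / 4) + u % 4) := by rw [Nat.div_add_mod u 4]
      rw [h5]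
      have h6 : u % 4 = 0 ∨ u % 4 = 1 ∨ u % 4 = 2 ∨ u % 4 = 3 := by omega
      rcases h6 with h | h | h | h <;> rw [h]
      · rw [Nat.add_zero, f_four]; omega
      · rw [f_four_one]; omega
      · rw [f_four_two]; omega
      · rw [f_four_three]; omega

/-- Every long block contains a zero. -/
lemma exists_zero_block (l u : ℕ) (h : u ≤ l) : ∃ j : ℕ, j < 4 ^ l ∧ f (4 ^ l * u + j) = 0 := by
  have h1 := f_abs_le_self u
  have hmono : ∀ t : ℕ, t ≤ l → 2 * R t < 4 ^ l := fun t ht =>
    lt_of_lt_of_le (R_lt t) (Nat.pow_le_pow_right (by norm_num) ht)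
  rcases le_total 0 (f u) with h2 | h2
  · obtain ⟨t, ht⟩ := Int.eq_ofNat_of_zero_le h2
    have h3 : t ≤ l := by
      rw [ht, abs_le] at h1
      omega
    refine ⟨2 * R t, hmono t h3, ?_⟩
    rw [f_add l u _ (hmono t h3), f_two_R, ht]
    ring
  · obtain ⟨t, ht⟩ := Int.eq_ofNat_of_zero_le (neg_nonneg.2 h2)
    have h3 : t ≤ l := by
      rw [abs_le] at h1
      omega
    have h4 := hmono t h3
    refine ⟨R t, by omega, ?_⟩
    rw [f_add l u _ (by omega), f_R]
    omega

/-- The solution of the recurrence. -/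
def r (n : ℕ) : ℤ := if n % 2 = 0 then f (n / 2) else 1

lemma r_even (m : ℕ) : r (2 * m) = f m := by
  rw [r, if_pos (by omega)]
  congr 1
  omega

lemma r_odd (m : ℕ) : r (2 * m + 1) = 1 := by
  rw [r, if_neg (by omega)]

lemma r_rec (n : ℕ) (hn : 2 ≤ n) : r n = a n * r (n - 1) + r (n - 2) := by
  rcases Nat.even_or_odd' n with ⟨m, rfl | rfl⟩
  · obtain ⟨m, rfl⟩ : ∃ q, m = q + 1 := ⟨m - 1, by omega⟩
    rw [r_even, show 2 * (m + 1) - 1 = 2 * m + 1 by omega, show 2 * (m + 1) - 2 = 2 * m by omega,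
      r_odd, r_even, f]
    ring
  · rw [r_odd, a_odd, show 2 * m + 1 - 2 = 2 * (m - 1) + 1 by omega, r_odd]
    ring

/-- There is an integer-valued automatic sequence `a` such that the sequence of the signs of the
solution `r` of `r 0 = 0`, `r 1 = 1`, `r n = a n * r (n - 1) + r (n - 2)` is not `k`-automatic for
any `k ≥ 2`. -/
theorem result :
    ∃ a r : ℕ → ℤ, (∃ k : ℕ, 2 ≤ k ∧ IsAutomatic k a) ∧
      r 0 = 0 ∧ r 1 = 1 ∧ (∀ n : ℕ, 2 ≤ n → r n = a n * r (n - 1) + r (n - 2)) ∧
      ∀ k : ℕ, 2 ≤ k → ¬ IsAutomatic k (fun n => Int.sign (r n)) := by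
  refine ⟨a, r, ⟨2, le_rfl, a_automatic⟩, rfl, rfl, r_rec, ?_⟩
  intro k hk hauto
  have h1 : ∀ n : ℕ, 1 ≤ n → ∃ e0 : ℕ, ∀ e : ℕ, e0 ≤ e →
      ∃ j : ℕ, j < k ^ e ∧ (fun n => Int.sign (r n)) (k ^ e * n + j) = 0 := by
    intro n hn
    refine ⟨2 * (8 * n + 4), fun e he => ?_⟩
    set K := k ^ e with hK
    have hK4 : 4 ^ (8 * n + 4) ≤ K := by
      calc 4 ^ (8 * n + 4) = 2 ^ (2 * (8 * n + 4)) := by rw [pow_mul]; norm_num
        _ ≤ 2 ^ e := Nat.pow_le_pow_right (by norm_num) he
        _ ≤ k ^ e := Nat.pow_le_pow_left hk e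
    have hKpos : K ≠ 0 := by
      have : 1 ≤ 4 ^ (8 * n + 4) := Nat.one_le_pow _ _ (by norm_num)
      omega
    set L := Nat.log 4 K with hL
    have hL1 : 4 ^ L ≤ K := Nat.pow_log_le_self 4 hKpos
    have hL2 : K < 4 ^ (L + 1) := Nat.lt_pow_succ_log_self (by norm_num) K
    have hL3 : 8 * n + 4 ≤ L := Nat.le_log_of_pow_le (by norm_num) hK4
    obtain ⟨l, hl⟩ : ∃ l, L = l + 1 := ⟨L - 1, by omega⟩
    rw [hl] at hL1 hL2 hL3
    have hq : 0 < 4 ^ l := by positivity
    set q := 4 ^ l with hqdef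
    have e1 : 4 ^ (l + 1) = 4 * q := by rw [pow_succ]; ring
    have e2 : 4 ^ (l + 1 + 1) = 16 * q := by rw [pow_succ, e1]; ring
    rw [e1] at hL1
    rw [e2] at hL2
    -- the block
    set u := K * n / (2 * q) + 1 with hu
    have hu1 : K * n < 2 * q * u := by
      rw [hu]
      exact Nat.lt_mul_div_succ _ (by positivity)
    have hu2 : 2 * q * u ≤ K * n + 2 * q := by
      rw [hu, Nat.mul_add, Nat.mul_one]
      have := Nat.mul_div_le (K * n) (2 * q)
      omega
    have hu3 : u ≤ l := by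
      have h5 : K * n / (2 * q) < 8 * n + 1 := by
        rw [Nat.div_lt_iff_lt_mul (by positivity)]
        calc K * n ≤ 16 * q * n := Nat.mul_le_mul_right n hL2.le
          _ < (8 * n + 1) * (2 * q) := by nlinarith
      omega
    obtain ⟨j, hj, hz⟩ := exists_zero_block l u hu3
    refine ⟨2 * (q * u + j) - K * n, ?_, ?_⟩
    · have h7 : 2 * (q * u + j) = 2 * q * u + 2 * j := by ring
      omega
    · have h7 : 2 * (q * u + j) = 2 * q * u + 2 * j := by ring
      have h8 : K * n + (2 * (q * u + j) - K * n) = 2 * (q * u + j) := by omega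
      show Int.sign (r (K * n + (2 * (q * u + j) - K * n))) = 0
      rw [h8, r_even, hz]
      rfl
  obtain ⟨B, hB⟩ := bounded_gaps hk hauto h1
  -- a long block without zeros
  have hBl : B ≤ 4 ^ B := (Nat.lt_pow_self (by norm_num)).le
  obtain ⟨y, hy1, hy2, hy3⟩ := hB (2 * (4 ^ B * R (B + 1)))
  have hne : ∀ m : ℕ, 4 ^ B * R (B + 1) ≤ m → m < 4 ^ B * R (B + 1) + 4 ^ B → f m ≠ 0 := by
    intro m h2 h3
    obtain ⟨j, rfl⟩ := Nat.exists_eq_add_of_le h2
    have h4 : j < 4 ^ B := by omega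
    rw [f_add B _ j h4, f_R]
    have h5 := f_abs_le B j h4
    rw [abs_le] at h5
    push_cast
    omega
  have hs : r y = 0 := Int.sign_eq_zero_iff_zero.1 hy3
  rcases Nat.even_or_odd' y with ⟨m, rfl | rfl⟩
  · rw [r_even] at hs
    exact hne m (by omega) (by omega) hs
  · rw [r_odd] at hs
    exact one_ne_zero hs

end Pool.Agent.Results.MP_c55a01_nt.NotAutomatic
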